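import Pool.Agent.H58.SO.Bridge

/-!
# MP_6ab439_lc, board vto_modules: LMU (from actions on the types to canonical maps)
-/

set_option autoImplicit false

namespace Pool.Agent.H88.SO

open Pool.Agent.H68.BP Pool.Agent.H58.SF Pool.Agent.H53.GC Pool.Agent.H53.NR
open Pool.Agent.H58.SO
open Pool.Agent.H44.EQ (TInv Lift)
open Classical Filter

theorem lmu_lim {T Y : Type} [Finite Y] (U : Ultrafilter T) (f : T → Y) :
    ∃ y, ∀ᶠ t in (U : Filter T), f t = y := by
  have h1 : ∀ᶠ t in (U : Filter T), ∃ y ∈ (Set.univ : Set Y), f t = y :=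
    Eventually.of_forall fun t => ⟨f t, trivial, rfl⟩
  obtain ⟨y, -, hy⟩ := (Ultrafilter.eventually_exists_mem_iff (Set.finite_univ)).1 h1
  exact ⟨y, hy⟩

/-- a copy preserves the colours and orders of pairs -/
theorem lmu_copy {V X Θ : Type} [LinearOrder V] {M : ℕ} (B : Bs V X Θ M) {K : Finset V}
    {g : V → V} (h1 : ∀ x ∈ K, ∀ y ∈ K, x < y → g x < g y)
    (h2 : ∀ x ∈ K, ∀ y ∈ K, x ≤ y → B.c (g x) (g y) = B.c x y) {x y : V} (hx : x ∈ K)
    (hy : y ∈ K) : B.ct (g x) (g y) = B.ct x y := by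
  rw [B.ct_eq_ct]
  rcases lt_trichotomy x y with h | h | h
  · have h3 := h1 x hx y hy h
    exact ⟨h2 x hx y hy h.le, ⟨fun _ => h, fun _ => h3⟩,
      ⟨fun h4 => absurd h4 (lt_asymm h3), fun h4 => absurd h4 (lt_asymm h)⟩⟩
  · subst h
    exact ⟨h2 x hx x hy le_rfl, by simp, by simp⟩
  · have h3 := h1 y hy x hx h
    refine ⟨?_, ⟨fun h4 => absurd h4 (lt_asymm h3), fun h4 => absurd h4 (lt_asymm h)⟩,
      ⟨fun _ => h, fun _ => h3⟩⟩
    rw [B.sym (g y) (g x), B.sym y x, h2 y hy x hx h.le]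

theorem pf_LMU (hCNG : Pool.Agent.H44.EQ.T_CNG) : T_LMU := by
  intro σ V X Θ _ M B 𝔸 hBl hR γ H
  have := B.finX
  have := B.finT
  obtain ⟨v0⟩ := B.ne
  -- the maps on the finite sets
  have hΨ : ∀ K : Finset V, ∃ Ψ : V → V,
      (∀ (l : Fin σ.m) (z : Fin (σ.ar l) → V), (∀ i, z i ∈ K) → 𝔸 l z →
        𝔸 l (fun a => Ψ (z a))) ∧ ∀ x ∈ K, B.vt (Ψ x) = γ (B.vt x) := by
    intro K
    obtain ⟨ψ, h1, h2⟩ := H K (fun w => (w : V))
    refine ⟨fun x => if h : x ∈ K then ψ ⟨x, h⟩ else v0, ?_, ?_⟩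
    · intro l z hz hA
      have h3 := h1 l (fun i => ⟨z i, hz i⟩) (fun _ => hA)
      have h4 : (fun a => if h : z a ∈ K then ψ ⟨z a, h⟩ else v0) =
          fun a => ψ ⟨z a, hz a⟩ := by
        funext a
        rw [dif_pos (hz a)]
      rw [h4]
      exact h3
    · intro x hx
      simp only
      rw [dif_pos hx]
      exact h2 ⟨x, hx⟩
  choose Ψ hΨ1 hΨ2 using hΨ
  obtain ⟨U, hU⟩ := Ultrafilter.exists_le (atTop : Filter (Finset V))
  have hin : ∀ K₀ : Finset V, ∀ᶠ K in (U : Filter (Finset V)), K₀ ⊆ K := fun K₀ =>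
    hU (eventually_ge_atTop K₀)
  choose q hq using fun x y => lmu_lim U (fun K => B.ct (Ψ K x) (Ψ K y))
  obtain ⟨h', hT, hL⟩ := hCNG V X Unit (X × Ordering) B.c hR (fun v w => q (v ()) (w ()))
  -- the map on colours and orders
  obtain ⟨m, hm⟩ : ∃ m : X × Ordering → X × Ordering,
      ∀ x y, m (B.ct x y) = h' (fun _ => x) (fun _ => y) := by
    refine ⟨fun t => if h : ∃ p : V × V, B.ct p.1 p.2 = t then
      h' (fun _ => h.choose.1) (fun _ => h.choose.2) else t, ?_⟩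
    intro x y
    have h : ∃ p : V × V, B.ct p.1 p.2 = B.ct x y := ⟨(x, y), rfl⟩
    simp only
    rw [dif_pos h]
    have h1 := h.choose_spec
    generalize h.choose = p at h1
    apply hT
    have h2 := B.ct_eq_ct.1 h1
    have h3 := B.ct_eq_imp h1
    intro i j
    rcases i with i | i <;> rcases j with j | j
    · simp only [Sum.elim_inl]
      refine ⟨by simp, fun _ => ?_⟩
      rw [B.diag, B.diag, h3.2.1]
    · simp only [Sum.elim_inl, Sum.elim_inr]
      exact ⟨h2.2.1, fun _ => h2.1⟩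
    · simp only [Sum.elim_inl, Sum.elim_inr]
      exact ⟨h2.2.2, fun _ => B.c_congr_symm h2.1⟩
    · simp only [Sum.elim_inr]
      refine ⟨by simp, fun _ => ?_⟩
      rw [B.diag, B.diag, h3.2.2]
  refine ⟨m, ?_, ?_⟩
  · intro s x hx
    obtain ⟨g, h1, h2, h3⟩ := hL (Finset.univ.image x)
    have hK : ∀ a, x a ∈ Finset.univ.image x := fun a =>
      Finset.mem_image_of_mem x (Finset.mem_univ a)
    have hct : ∀ a b, B.ct (g (x a)) (g (x b)) = B.ct (x a) (x b) := fun a b =>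
      lmu_copy B h1 h2 (hK a) (hK b)
    have hgx : relP 𝔸 M s (fun a => g (x a)) := hBl.rel hx (sameD_of_ct hct)
    have e1 : ∀ᶠ K in (U : Filter (Finset V)), ∀ a b,
        B.ct (Ψ K (g (x a))) (Ψ K (g (x b))) = q (g (x a)) (g (x b)) := by
      rw [eventually_all]
      intro a
      rw [eventually_all]
      intro b
      exact hq _ _
    obtain ⟨K, hK1, hK2⟩ := (e1.and (hin (Finset.univ.image fun a => g (x a)))).exists
    refine ⟨fun a => Ψ K (g (x a)), ?_, ?_⟩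
    · cases s with
      | none => trivial
      | some l =>
        exact hΨ1 K l (fun a => g (x a)) (fun i => hK2 (Finset.mem_image_of_mem
          (fun a => g (x a)) (Finset.mem_univ i))) hgx
    · intro a b
      rw [hK1 a b, hm, h3 (fun _ => x a) (fun _ => x b) (fun _ => hK a) (fun _ => hK b)]
  · intro s
    obtain ⟨x, rfl⟩ := B.surjT s
    obtain ⟨g, h1, h2, h3⟩ := hL {x}
    have hx : x ∈ ({x} : Finset V) := Finset.mem_singleton_self x
    have hvt : B.vt (g x) = B.vt x := (B.vt_of_c (h2 x hx x hx le_rfl)).1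
    obtain ⟨K, hK1, hK2⟩ := ((hq (g x) (g x)).and (hin {g x})).exists
    unfold tm
    rw [← B.ct_self x, hm, h3 (fun _ => x) (fun _ => x) (fun _ => hx) (fun _ => hx)]
    change B.L (q (g x) (g x)).1 = γ (B.vt x)
    rw [← hK1, B.ct_fst, B.left, hΨ2 K (g x) (hK2 (Finset.mem_singleton_self _)), hvt]

end Pool.Agent.H88.SO
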